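import Pool.Agent.Helper68.QC.St3

/-!
# Project QD, part M, module JIB: the Jacobian as a distribution
-/

set_option autoImplicit false

open MeasureTheory Set Filter Topology Complex
open scoped ContDiff ComplexConjugate ENNReal

namespace Pool.Agent.Helper82.QCM

open Pool.Agent.Helper68.QC

theorem pJIB (hIBP : StIBP) (hCHR : StCHR) : Pool.Agent.Helper68.QC.StJIB := by
  intro w a b ψ hw hψ
  have hd : ∀ z : ℂ, dz (fun x : ℂ => conj x) z = 0 ∧ dzb (fun x : ℂ => conj x) z = 1 := by
    intro z
    have h0 : DifferentiableAt ℂ (fun x : ℂ => x) z := differentiableAt_id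
    have h1 : DifferentiableAt ℝ (fun x : ℂ => x) z := differentiableAt_id
    rw [dz_conj h1, dzb_conj h1, dz_holo h0, dzb_holo h0]
    simp
  have hs : ContDiff ℝ ∞ (fun x : ℂ => conj x) := Complex.conjCLE.contDiff
  have hv := hCHR univ univ w a b (fun x : ℂ => conj x) isOpen_univ isOpen_univ hw
    (mapsTo_univ _ _) hs.contDiffOn
  simp only [(hd _).1, (hd _).2, zero_mul, one_mul, zero_add] at hv
  have h1 : WD univ (fun _ => (1 : ℂ)) (fun _ => 0) (fun _ => 0) := by
    have h2 := wd_smooth (f := fun _ : ℂ => (1 : ℂ)) contDiff_const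
    have h3 : dz (fun _ : ℂ => (1 : ℂ)) = fun _ => 0 := by
      funext z
      simp [dz]
    have h4 : dzb (fun _ : ℂ => (1 : ℂ)) = fun _ => 0 := by
      funext z
      simp [dzb]
    rw [h3, h4] at h2
    exact h2 univ
  have key := hIBP univ _ _ _ w a b _ _ _ ψ isOpen_univ h1 hw hv hψ
  have e1 : (fun z => ψ z * (jc a b z : ℂ)) = fun z => ψ z * (1 * (a z * conj (a z) -
      b z * conj (b z)) + w z * (0 * conj (a z) - 0 * conj (b z))) := by
    funext z
    rw [Complex.mul_conj, Complex.mul_conj, Complex.normSq_eq_norm_sq,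
      Complex.normSq_eq_norm_sq]
    unfold jc
    push_cast
    ring
  have e2 : (fun z => w z * (dz ψ z * conj (a z) - dzb ψ z * conj (b z))) =
      fun z => 1 * w z * (dz ψ z * conj (a z) - dzb ψ z * conj (b z)) := by
    funext z
    rw [one_mul]
  rw [e1, e2]
  exact key

end Pool.Agent.Helper82.QCM
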