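import Pool.Agent.Helper68.QC.St2

/-!
# Project QD, part M, module UNW: uniqueness of weak derivatives
-/

set_option autoImplicit false

open MeasureTheory Set Filter Topology Complex
open scoped ContDiff ComplexConjugate ENNReal

namespace Pool.Agent.Helper82.QCM

open Pool.Agent.Helper68.QC

private theorem loc {U : Set ℂ} (hU : IsOpen U) {a : ℂ → ℂ} (ha : L2 U a) :
    LocallyIntegrableOn a U volume := by
  rw [locallyIntegrableOn_iff hU.isLocallyClosed]
  intro K hK hKc
  have hfin : IsFiniteMeasure (volume.restrict K) :=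
    ⟨by rw [Measure.restrict_apply_univ]; exact hKc.measure_lt_top⟩
  exact (ha K hK hKc).integrable (by norm_num)

private theorem int_mul {U : Set ℂ} {a φ : ℂ → ℂ} (ha : L2 U a) (hφ : Tst U φ) :
    Integrable (fun z => a z * φ z) := by
  have hK : IsCompact (tsupport φ) := hφ.cpt
  have hfin : IsFiniteMeasure (volume.restrict (tsupport φ)) :=
    ⟨by rw [Measure.restrict_apply_univ]; exact hK.measure_lt_top⟩
  have h1 : IntegrableOn a (tsupport φ) := (ha _ hφ.sub hK).integrable (by norm_num)
  have h2 : IntegrableOn (fun z => a z * φ z) (tsupport φ) :=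
    h1.mul_continuousOn hφ.smooth.continuous.continuousOn hK
  rw [integrableOn_iff_integrable_of_support_subset] at h2
  · exact h2
  · intro z hz
    apply subset_tsupport φ
    intro h0
    exact hz (by simp only [h0, mul_zero])

private theorem zero_out {U : Set ℂ} {φ : ℂ → ℂ} (hφ : Tst U φ) {z : ℂ} (hz : z ∉ U) :
    dz φ z = 0 ∧ dzb φ z = 0 := by
  have h1 : z ∉ tsupport φ := fun h => hz (hφ.sub h)
  have h2 : fderiv ℝ φ z = 0 := by
    by_contra h
    exact h1 (support_fderiv_subset ℝ h)
  unfold dz dzb
  rw [h2]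
  simp

private theorem cast_tst {U : Set ℂ} {g : ℂ → ℝ} (hg : ContDiff ℝ ∞ g)
    (hc : HasCompactSupport g) (hs : tsupport g ⊆ U) : Tst U (fun z => (g z : ℂ)) where
  smooth := Complex.ofRealCLM.contDiff.comp hg
  cpt := hc.comp_left (g := fun x : ℝ => (x : ℂ)) Complex.ofReal_zero
  sub := by
    have h1 : Function.support (fun z => (g z : ℂ)) ⊆ Function.support g := by
      intro z hz h0
      apply hz
      show (g z : ℂ) = 0
      rw [h0, Complex.ofReal_zero]
    exact (closure_mono h1).trans hs

private theorem core {U : Set ℂ} (hU : IsOpen U) {a a' : ℂ → ℂ} (ha : L2 U a) (ha' : L2 U a')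
    (h : ∀ φ, Tst U φ → ∫ z, a z * φ z = ∫ z, a' z * φ z) :
    ∀ᵐ z ∂(volume.restrict U), a z = a' z := by
  have h1 := hU.ae_eq_zero_of_integral_contDiff_smul_eq_zero (μ := volume)
    ((loc hU ha).sub (loc hU ha')) (by
      intro g hg hc hs
      have hφ := cast_tst hg hc hs
      have e1 : (fun z => g z • (a - a') z) = fun z => a z * (g z : ℂ) - a' z * (g z : ℂ) := by
        funext z
        rw [Pi.sub_apply, Complex.real_smul]
        ring
      rw [e1, integral_sub (int_mul ha hφ) (int_mul ha' hφ), h _ hφ, sub_self])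
  rw [ae_restrict_iff' hU.measurableSet]
  filter_upwards [h1] with z hz hzU
  exact sub_eq_zero.mp (hz hzU)

theorem pUNW : Pool.Agent.Helper68.QC.StUNW := by
  intro U f f' a b a' b' hU hff h1 h2
  constructor
  · refine core hU h1.l2a h2.l2a ?_
    intro φ hφ
    have e1 := h1.dz φ hφ
    have e2 := h2.dz φ hφ
    have e3 : ∫ z, f z * dz φ z = ∫ z, f' z * dz φ z := by
      congr 1
      funext z
      by_cases hz : z ∈ U
      · rw [hff hz]
      · rw [(zero_out hφ hz).1, mul_zero, mul_zero]
    rw [e1, e2] at e3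
    exact neg_injective e3
  · refine core hU h1.l2b h2.l2b ?_
    intro φ hφ
    have e1 := h1.dzb φ hφ
    have e2 := h2.dzb φ hφ
    have e3 : ∫ z, f z * dzb φ z = ∫ z, f' z * dzb φ z := by
      congr 1
      funext z
      by_cases hz : z ∈ U
      · rw [hff hz]
      · rw [(zero_out hφ hz).2, mul_zero, mul_zero]
    rw [e1, e2] at e3
    exact neg_injective e3

end Pool.Agent.Helper82.QCM
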